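import Pool.Agent.V11244.CK.Main

/-!
# Chow-Kunneth decompositions: one correspondence is enough

`𝒱` is a class of smooth projective geometrically irreducible varieties over the field `k` closed
under products (for example all of them), `C` the Chow groups with rational coefficients (in the
form of their formal properties, `IsChowProj`) and `H` a Weil cohomology theory (`IsWeilProj`).

`X` has a Chow-Kunneth decomposition if and only if there is ONE correspondence `a` of degree zero
which separates the cohomology groups: `P_i(a) = 0` on `H^i(X)` for pairwise coprime polynomials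
`P_0, …, P_(2d)` with rational coefficients, and the one correspondence
`P_0(a) ∘ ⋯ ∘ P_(2d)(a)`, which is homologically trivial, is nilpotent modulo rational equivalence.
For every such `a` the projectors can be chosen to be polynomials in `a`.

Example (not in the Lean text): `k` finite, `a` the graph of the Frobenius, `P_i` its characteristic
polynomial on `H^i(X)`; or `a` the graph of a polarised endomorphism of a variety over any field.
-/

set_option autoImplicit false

open Polynomial

universe u v w

namespace Pool.Agent.Results.MP_638e8a_ag.OneCorrespondence

open Pool.Agent.H914 Pool.Agent.W492.BB Pool.Agent.TH133 Pool.Agent.V11244.CK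

/-- 1. If the correspondence `a` separates the cohomology groups of `X` (with the polynomials `P`),
then `X` has a Chow-Kunneth decomposition whose projectors are polynomials in `a`.

2. `X` has a Chow-Kunneth decomposition if and only if some correspondence separates its cohomology
groups. -/
theorem result {k : Type u} [Field k] {𝒱 : VarClass k} (C : TheoryData.{u, v, 0} 𝒱 ℚ)
    [IsChowProj C] {K : Type w} [Field K] (H : WeilTheoryData.{u, v, w} C K) [IsWeilProj H]
    (X : 𝒱.Obj) :
    (∀ (a : C.A (X.prod X)) (P : ℕ → ℚ[X]), Separates H a P →
      ∃ (π : ℕ → C.A (X.prod X)) (E : ℕ → ℚ[X]), IsCK H X π ∧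
        ∀ i ≤ 2 * X.dim, π i = evalAt C a (E i)) ∧
    ((∃ π : ℕ → C.A (X.prod X), IsCK H X π) ↔
      ∃ (a : C.A (X.prod X)) (P : ℕ → ℚ[X]), Separates H a P) := by
  refine ⟨fun a P h => main h, ?_, ?_⟩
  · rintro ⟨π, h⟩
    exact converse h
  · rintro ⟨a, P, h⟩
    obtain ⟨π, E, h1, -⟩ := main h
    exact ⟨π, h1⟩

end Pool.Agent.Results.MP_638e8a_ag.OneCorrespondence
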